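import Mathlib
import Pool.Agent.H270R2.GEN.Defs
import Pool.Agent.Helper467.FP.P_tau_bounds

/-! ROOM GEN, BLOCK 2, task GEN2: the algebra of the pairs has two self-adjoint generators. -/

set_option autoImplicit false

open scoped ComplexOrder Topology BoundedContinuousFunction
open Filter

noncomputable section

namespace Pool.Agent.H270G.T_GEN2

open Pool.Agent.H467F Pool.Agent.H735G Pool.Agent.H270G

variable {A : Type} [CStarAlgebra A] {τ : A →ₗ[ℂ] ℂ}

/-- Newton iteration for the sign. -/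
def nwt (x : A) : ℕ → A
  | 0 => x
  | n + 1 => (2⁻¹ : ℂ) • ((3 : ℂ) • nwt x n - nwt x n * nwt x n * nwt x n)

theorem nwt_mem (B : StarSubalgebra ℂ A) {x : A} (hx : x ∈ B) (n : ℕ) : nwt x n ∈ B := by
  induction n with
  | zero => exact hx
  | succ n ih =>
    exact B.smul_mem (sub_mem (B.smul_mem ih _) (mul_mem (mul_mem ih ih) ih)) _

theorem nwt_comm {s x : A} (hc : s * x = x * s) (n : ℕ) : s * nwt x n = nwt x n * s := by
  induction n with
  | zero => exact hc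
  | succ n ih =>
    have h3 : s * (nwt x n * nwt x n * nwt x n) = nwt x n * nwt x n * nwt x n * s := by
      rw [← mul_assoc, ← mul_assoc, ih, mul_assoc (nwt x n) s, ih, ← mul_assoc, mul_assoc _ s, ih,
        ← mul_assoc]
    change s * ((2⁻¹ : ℂ) • ((3 : ℂ) • nwt x n - nwt x n * nwt x n * nwt x n)) =
      ((2⁻¹ : ℂ) • ((3 : ℂ) • nwt x n - nwt x n * nwt x n * nwt x n)) * s
    rw [mul_smul_comm, smul_mul_assoc, mul_sub, sub_mul, h3, mul_smul_comm, smul_mul_assoc, ih]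

theorem nwt_err {s x : A} (hs : s * s = 1) (hc : s * x = x * s) (n : ℕ) :
    1 - s * nwt x (n + 1) = (2⁻¹ : ℂ) • ((1 - s * nwt x n) * (1 - s * nwt x n) *
      ((3 : ℂ) • (1 : A) - (1 - s * nwt x n))) := by
  have hcn := nwt_comm hc n
  set y := nwt x n with hy
  have e1 : s * y * (s * y) = y * y := by
    rw [mul_assoc s y, ← mul_assoc y s y, ← hcn, mul_assoc s y y, ← mul_assoc, hs, one_mul]
  have e2 : s * y * (s * y) * (s * y) = s * (y * y * y) := by
    rw [e1, ← mul_assoc (y * y) s y, mul_assoc y y s, ← hcn, ← mul_assoc y s y, ← hcn]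
    simp only [mul_assoc]
  have e3 : s * nwt x (n + 1) = (2⁻¹ : ℂ) • ((3 : ℂ) • (s * y) - s * y * (s * y) * (s * y)) := by
    rw [e2]
    change s * ((2⁻¹ : ℂ) • ((3 : ℂ) • nwt x n - nwt x n * nwt x n * nwt x n)) = _
    rw [mul_smul_comm, mul_sub, mul_smul_comm]
  rw [e3]
  generalize s * y = z
  have e4 : (1 - z) * (1 - z) * ((3 : ℂ) • (1 : A) - (1 - z)) =
      (2 : ℂ) • (1 : A) - ((3 : ℂ) • z - z * z * z) := by
    have t3 : (3 : ℂ) • (1 : A) = 1 + 1 + 1 := by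
      rw [show (3 : ℂ) = 1 + 1 + 1 by norm_num, add_smul, add_smul, one_smul]
    have t2 : (2 : ℂ) • (1 : A) = 1 + 1 := by
      rw [show (2 : ℂ) = 1 + 1 by norm_num, add_smul, one_smul]
    have t3z : (3 : ℂ) • z = z + z + z := by
      rw [show (3 : ℂ) = 1 + 1 + 1 by norm_num, add_smul, add_smul, one_smul]
    rw [t3, t2, t3z]
    simp only [mul_sub, sub_mul, mul_add, mul_one, one_mul]
    abel
  rw [e4, smul_sub (2⁻¹ : ℂ) ((2 : ℂ) • (1 : A)), smul_smul]
  norm_num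

theorem nwt_bound {s x : A} (hs : s * s = 1) (hn : ‖s‖ ≤ 1) (h1 : ‖(1 : A)‖ ≤ 1)
    (hc : s * x = x * s)
    (hr : ‖x - s‖ ≤ 1 / 3) (n : ℕ) : ‖1 - s * nwt x n‖ ≤ (1 / 3) * (5 / 9) ^ n := by
  induction n with
  | zero =>
    change ‖1 - s * x‖ ≤ _
    have e : 1 - s * x = -(s * (x - s)) := by
      rw [mul_sub, hs, neg_sub]
    rw [e, norm_neg]
    have := norm_mul_le s (x - s)
    have h0 := norm_nonneg (x - s)
    have h00 := norm_nonneg s
    nlinarith
  | succ n ih =>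
    rw [nwt_err hs hc n]
    set e := 1 - s * nwt x n with he
    have h5 : (5 / 9 : ℝ) ^ n ≤ 1 := pow_le_one₀ (by norm_num) (by norm_num)
    have h50 : (0 : ℝ) ≤ (5 / 9 : ℝ) ^ n := by positivity
    have hen := norm_nonneg e
    have a1 : ‖(3 : ℂ) • (1 : A) - e‖ ≤ 10 / 3 := by
      have := norm_sub_le ((3 : ℂ) • (1 : A)) e
      have h3 : ‖(3 : ℂ) • (1 : A)‖ ≤ 3 := by
        rw [norm_smul]
        have : ‖(3 : ℂ)‖ = 3 := by simp
        rw [this]; linarith
      linarith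
    have a2 : ‖e * e * ((3 : ℂ) • (1 : A) - e)‖ ≤ ‖e‖ * ‖e‖ * (10 / 3) := by
      refine (norm_mul_le _ _).trans ?_
      exact mul_le_mul (norm_mul_le _ _) a1 (norm_nonneg _) (by positivity)
    rw [norm_smul]
    have a3 : ‖(2⁻¹ : ℂ)‖ = 1 / 2 := by simp
    rw [a3, pow_succ]
    have a4 : ‖e‖ * ‖e‖ ≤ (1 / 3) * ((1 / 3) * (5 / 9) ^ n) :=
      mul_le_mul (by linarith) ih hen (by norm_num)
    nlinarith

theorem sign_mem (B : StarSubalgebra ℂ A) (hB : IsClosed (B : Set A)) {s x : A} (hs : s * s = 1)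
    (hn : ‖s‖ ≤ 1) (h1 : ‖(1 : A)‖ ≤ 1) (hx : x ∈ B) (hc : s * x = x * s)
    (hr : ‖x - s‖ ≤ 1 / 3) : s ∈ B := by
  have ht : Tendsto (fun n => nwt x n) atTop (𝓝 s) := by
    rw [tendsto_iff_norm_sub_tendsto_zero]
    have hb : ∀ n, ‖nwt x n - s‖ ≤ (1 / 3) * (5 / 9) ^ n := by
      intro n
      have e : nwt x n - s = -(s * (1 - s * nwt x n)) := by
        rw [mul_sub, ← mul_assoc, hs, one_mul, mul_one, neg_sub]
      rw [e, norm_neg]
      have a := norm_mul_le s (1 - s * nwt x n)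
      have b := nwt_bound hs hn h1 hc hr n
      have c := norm_nonneg (1 - s * nwt x n)
      nlinarith [norm_nonneg s]
    have hz : Tendsto (fun n : ℕ => (1 / 3 : ℝ) * (5 / 9) ^ n) atTop (𝓝 0) := by
      have := (tendsto_pow_atTop_nhds_zero_of_lt_one (r := (5 / 9 : ℝ)) (by norm_num)
        (by norm_num)).const_mul (1 / 3)
      simpa using this
    exact squeeze_zero (fun n => norm_nonneg _) hb hz
  exact hB.mem_of_tendsto ht (Eventually.of_forall fun n => nwt_mem B hx n)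

/-- The tail sums. -/
def tl (s : ℕ → A) (m : ℕ) : A := ∑' k, ((4⁻¹ : ℝ) ^ k) • s (m + k)

theorem sum_tl {s : ℕ → A} (hn : ∀ k, ‖s k‖ ≤ 1) (m : ℕ) :
    Summable (fun k => ((4⁻¹ : ℝ) ^ k) • s (m + k)) := by
  refine Summable.of_norm_bounded (g := fun k => (4⁻¹ : ℝ) ^ k)
    (summable_geometric_of_lt_one (by norm_num) (by norm_num)) ?_
  intro k
  rw [norm_smul, Real.norm_of_nonneg (by positivity)]
  have := hn (m + k)
  have h4 : (0 : ℝ) ≤ (4⁻¹ : ℝ) ^ k := by positivity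
  nlinarith

theorem tl_succ {s : ℕ → A} (hn : ∀ k, ‖s k‖ ≤ 1) (m : ℕ) :
    tl s m = s m + (4⁻¹ : ℝ) • tl s (m + 1) := by
  unfold tl
  rw [(sum_tl hn m).tsum_eq_zero_add, ← (sum_tl hn (m + 1)).tsum_const_smul]
  simp only [pow_zero, one_smul, add_zero]
  congr 1
  refine tsum_congr fun k => ?_
  rw [smul_smul, pow_succ, mul_comm]
  congr 2
  ring

theorem tl_norm {s : ℕ → A} (hn : ∀ k, ‖s k‖ ≤ 1) (m : ℕ) : ‖tl s m‖ ≤ 4 / 3 := by
  have h := tsum_of_norm_bounded (f := fun k => ((4⁻¹ : ℝ) ^ k) • s (m + k))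
    (g := fun k => (4⁻¹ : ℝ) ^ k) (a := (1 - 4⁻¹ : ℝ)⁻¹)
    (hasSum_geometric_of_lt_one (by norm_num) (by norm_num)) (by
      intro k
      rw [norm_smul, Real.norm_of_nonneg (by positivity)]
      have := hn (m + k)
      have h4 : (0 : ℝ) ≤ (4⁻¹ : ℝ) ^ k := by positivity
      nlinarith)
  unfold tl
  refine h.trans (le_of_eq ?_)
  norm_num

theorem tl_comm {s : ℕ → A} (hn : ∀ k, ‖s k‖ ≤ 1) (hc : ∀ j k, s j * s k = s k * s j) (j m : ℕ) :
    s j * tl s m = tl s m * s j := by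
  unfold tl
  rw [← (sum_tl hn m).tsum_mul_left, ← (sum_tl hn m).tsum_mul_right]
  refine tsum_congr fun k => ?_
  rw [mul_smul_comm, smul_mul_assoc, hc]

theorem tl_star {s : ℕ → A} (hs : ∀ k, star (s k) = s k) (m : ℕ) : star (tl s m) = tl s m := by
  unfold tl
  rw [tsum_star]
  refine tsum_congr fun k => ?_
  rw [star_smul, hs, star_trivial]

theorem tl_mem (B : StarSubalgebra ℂ A) (hB : IsClosed (B : Set A)) {s : ℕ → A}
    (hn : ∀ k, ‖s k‖ ≤ 1) (hm : ∀ k, s k ∈ B) (m : ℕ) : tl s m ∈ B := by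
  have ht := (sum_tl hn m).hasSum.tendsto_sum_nat
  refine hB.mem_of_tendsto ht (Eventually.of_forall fun n => ?_)
  refine sum_mem fun k _ => ?_
  have := B.smul_mem (hm (m + k)) (((4⁻¹ : ℝ) ^ k : ℝ) : ℂ)
  rwa [Complex.coe_smul] at this

theorem all_mem (B : StarSubalgebra ℂ A) (hB : IsClosed (B : Set A)) (h1 : ‖(1 : A)‖ ≤ 1)
    {s : ℕ → A} (hn : ∀ k, ‖s k‖ ≤ 1) (hs : ∀ k, s k * s k = 1)
    (hc : ∀ j k, s j * s k = s k * s j) (h0 : tl s 0 ∈ B) (m : ℕ) : s m ∈ B ∧ tl s (m + 1) ∈ B := by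
  have step : ∀ m, tl s m ∈ B → s m ∈ B ∧ tl s (m + 1) ∈ B := by
    intro m hm
    have a1 : s m ∈ B := by
      refine sign_mem B hB (hs m) (hn m) h1 hm (tl_comm hn hc m m) ?_
      rw [tl_succ hn m, add_sub_cancel_left, norm_smul]
      have := tl_norm hn (m + 1)
      have h4 : ‖(4⁻¹ : ℝ)‖ = 1 / 4 := by norm_num
      rw [h4]
      linarith
    refine ⟨a1, ?_⟩
    have e : tl s (m + 1) = (4 : ℂ) • (tl s m - s m) := by
      rw [tl_succ hn m, add_sub_cancel_left, ← Complex.coe_smul, smul_smul]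
      norm_num
    rw [e]
    exact B.smul_mem (sub_mem hm a1) _
  induction m with
  | zero => exact step 0 h0
  | succ m ih => exact step (m + 1) ih.2

/-- GEN2: the algebra of the pairs has two self-adjoint generators. -/
theorem two_gen (h : TW τ) (s t : ℕ → A) (hp : ∀ K, PauK s t K) :
    ∃ h₁ h₂ : A, star h₁ = h₁ ∧ star h₂ = h₂ ∧ h₁ ∈ NN s t ∧ h₂ ∈ NN s t ∧
      ∀ x ∈ NN s t, x ∈ Cl τ (StarAlgebra.adjoin ℂ {h₁, h₂} : Set A) := by
  have hss : ∀ k, star (s k) = s k := fun k => (hp (k + 1)).ss k (Nat.lt_succ_self k)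
  have hts : ∀ k, star (t k) = t k := fun k => (hp (k + 1)).ts k (Nat.lt_succ_self k)
  have hs1 : ∀ k, s k * s k = 1 := fun k => (hp (k + 1)).s1 k (Nat.lt_succ_self k)
  have ht1 : ∀ k, t k * t k = 1 := fun k => (hp (k + 1)).t1 k (Nat.lt_succ_self k)
  have hcs : ∀ j k, s j * s k = s k * s j := fun j k =>
    (hp (j + k + 1)).css j (by omega) k (by omega)
  have hct : ∀ j k, t j * t k = t k * t j := fun j k =>
    (hp (j + k + 1)).ctt j (by omega) k (by omega)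
  have h1 : ‖(1 : A)‖ ≤ 1 := by
    have e : ‖star (1 : A) * 1‖ = ‖(1 : A)‖ * ‖(1 : A)‖ := CStarRing.norm_star_mul_self
    rw [star_one, one_mul] at e
    nlinarith [norm_nonneg (1 : A)]
  have nrm : ∀ a : A, star a = a → a * a = 1 → ‖a‖ ≤ 1 := by
    intro a ha ha1
    have e : ‖star a * a‖ = ‖a‖ * ‖a‖ := CStarRing.norm_star_mul_self
    rw [ha, ha1] at e
    nlinarith [norm_nonneg a]
  have hsn : ∀ k, ‖s k‖ ≤ 1 := fun k => nrm _ (hss k) (hs1 k)
  have htn : ∀ k, ‖t k‖ ≤ 1 := fun k => nrm _ (hts k) (ht1 k)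
  have hNc : IsClosed (NN s t : Set A) := StarSubalgebra.isClosed_topologicalClosure _
  have hNs : ∀ k, s k ∈ NN s t := fun k =>
    StarSubalgebra.le_topologicalClosure _
      (StarAlgebra.subset_adjoin ℂ _ (Or.inl (Set.mem_range_self k)))
  have hNt : ∀ k, t k ∈ NN s t := fun k =>
    StarSubalgebra.le_topologicalClosure _
      (StarAlgebra.subset_adjoin ℂ _ (Or.inr (Set.mem_range_self k)))
  refine ⟨tl s 0, tl t 0, tl_star hss 0, tl_star hts 0, tl_mem _ hNc hsn hNs 0,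
    tl_mem _ hNc htn hNt 0, ?_⟩
  intro x hx
  set B := (StarAlgebra.adjoin ℂ ({tl s 0, tl t 0} : Set A)).topologicalClosure with hBdef
  have hBc : IsClosed (B : Set A) := StarSubalgebra.isClosed_topologicalClosure _
  have hBs : tl s 0 ∈ B := StarSubalgebra.le_topologicalClosure _
    (StarAlgebra.subset_adjoin ℂ _ (by simp))
  have hBt : tl t 0 ∈ B := StarSubalgebra.le_topologicalClosure _
    (StarAlgebra.subset_adjoin ℂ _ (by simp))
  have hle : NN s t ≤ B := by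
    refine StarSubalgebra.topologicalClosure_minimal ?_ hBc
    rw [StarAlgebra.adjoin_le_iff]
    rintro y (⟨k, rfl⟩ | ⟨k, rfl⟩)
    · exact (all_mem B hBc h1 hsn hs1 hcs hBs k).1
    · exact (all_mem B hBc h1 htn ht1 hct hBt k).1
  have hxB : x ∈ closure ((StarAlgebra.adjoin ℂ ({tl s 0, tl t 0} : Set A)) : Set A) := by
    have := hle hx
    rw [hBdef, ← SetLike.mem_coe, StarSubalgebra.topologicalClosure_coe] at this
    exact this
  intro ε hε
  obtain ⟨y, hy, hxy⟩ := Metric.mem_closure_iff.1 hxB ε hε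
  refine ⟨y, hy, ?_⟩
  rw [dist_eq_norm] at hxy
  exact ((tau_bounds h).2 (x - y)).trans_lt hxy

end Pool.Agent.H270G.T_GEN2
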